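import Mathlib
import Pool.Agent.WR3.StmtsB

namespace Pool.Agent.WR3.H95

open Pool.Agent.WIR Pool.Agent.WR2 Pool.Agent.WR3
open scoped BigOperators ENNReal Topology
open Filter

theorem ns_le (S : Set ℕ) (x : ℝ) (hx : 0 ≤ x) : NS S x ≤ x := by
  classical
  unfold NS
  refine le_trans (Nat.cast_le.mpr (Finset.card_filter_le _ _)) ?_
  rw [Nat.card_Icc, Nat.add_sub_cancel]
  exact Nat.floor_le hx

theorem ns_nonneg (S : Set ℕ) (x : ℝ) : 0 ≤ NS S x := by
  unfold NS
  exact Nat.cast_nonneg _

theorem tao (h1 : TerStmt) (h2 : HsdStmt) (h3 : MinStmt) : TaoStmt := by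
  intro p
  obtain ⟨D, x0, hD, hx0, hH⟩ := h2 (p + 2)
  obtain ⟨C1, hC1, hT⟩ := h1 (p + 1)
  obtain ⟨κ, hκ, hM⟩ := h3 p D hD
  have hl2 : (0.6931471803 : ℝ) < Real.log 2 := Real.log_two_gt_d9
  have hl2' : Real.log 2 < 0.6931471808 := Real.log_two_lt_d9
  set X : ℝ := max x0 8 with hX
  have hX8 : (8 : ℝ) ≤ X := le_max_right _ _
  have hX0 : x0 ≤ X := le_max_left _ _
  have hlX : 2 ≤ Real.log X := by
    have h8 : Real.log 8 = 3 * Real.log 2 := by
      have : (8 : ℝ) = 2 ^ 3 := by norm_num
      rw [this, Real.log_pow]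
      norm_num
    have := Real.log_le_log (by norm_num : (0 : ℝ) < 8) hX8
    rw [h8] at this
    linarith
  refine ⟨Real.log X ^ p + 2 * (C1 + κ), by positivity, ?_⟩
  intro y x hy hx
  have hy2 : (2 : ℝ) ≤ (y : ℝ) := by exact_mod_cast hy
  have hly : Real.log 2 ≤ Real.log y := Real.log_le_log (by norm_num) hy2
  have hly0 : 0 < Real.log y := by linarith
  have hlyy : Real.log y ≤ Real.log ((y : ℝ) + 1) :=
    Real.log_le_log (by linarith) (by linarith)
  set S : Set ℕ := {b | ∀ j, y < T^[j] b} with hS
  have hEI : EI S y := by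
    intro b hb
    constructor
    · intro h j
      have := h (j + 1)
      rwa [Function.iterate_succ_apply] at this
    · intro h j
      cases j with
      | zero => simpa using hb
      | succ j =>
        rw [Function.iterate_succ_apply]
        exact h j
  have hxp : 0 < x := by linarith
  have hpow : 0 < Real.log y ^ p := pow_pos hly0 p
  have hpow1 : 0 < Real.log y ^ (p + 1) := pow_pos hly0 _
  -- 1 / log y ^ (p+1) ≤ 2 / log y ^ p
  have hstep : ∀ A : ℝ, 0 ≤ A → A * x / Real.log y ^ (p + 1) ≤ 2 * A * x / Real.log y ^ p := by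
    intro A hA
    rw [div_le_div_iff₀ hpow1 hpow, pow_succ]
    have : 1 ≤ 2 * Real.log y := by linarith
    have h0 : 0 ≤ A * x * Real.log y ^ p := by positivity
    nlinarith [mul_le_mul_of_nonneg_left this h0]
  have hfin : ∀ A : ℝ, 0 ≤ A → A ≤ Real.log X ^ p + 2 * (C1 + κ) →
      A * x / Real.log y ^ p ≤ (Real.log X ^ p + 2 * (C1 + κ)) * x / Real.log y ^ p := by
    intro A _ hA
    exact div_le_div_of_nonneg_right (mul_le_mul_of_nonneg_right hA hxp.le) hpow.le
  have hXp : 0 ≤ Real.log X ^ p := by positivity
  set v0 : ℝ := 6 / 5 * Real.log ((y : ℝ) + 1) with hv0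
  have hlv : Real.log y ≤ v0 := by
    rw [hv0]
    nlinarith
  by_cases hcase : v0 < Real.log X
  · -- small y
    have h1 : Real.log y ^ p ≤ Real.log X ^ p := pow_le_pow_left₀ hly0.le (by linarith) p
    have h2 : NS S x ≤ Real.log X ^ p * x / Real.log y ^ p := by
      rw [le_div_iff₀ hpow]
      have := ns_le S x hxp.le
      have h0 := ns_nonneg S x
      calc NS S x * Real.log y ^ p ≤ x * Real.log X ^ p :=
            mul_le_mul this h1 hpow.le hxp.le
        _ = Real.log X ^ p * x := mul_comm _ _
    exact h2.trans (hfin _ hXp (by nlinarith))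
  · have hv0X : Real.log X ≤ v0 := not_lt.mp hcase
    have hv02 : 2 ≤ v0 := hlX.trans hv0X
    by_cases hxs : x ^ 5 ≤ ((y : ℝ) + 1) ^ 6
    · have h2 := hT y x hy hx hxs
      have h3' := hstep C1 hC1
      exact (h2.trans h3').trans (hfin _ (by positivity) (by nlinarith))
    · -- x large
      have hy1 : (0 : ℝ) < (y : ℝ) + 1 := by linarith
      have hexp6 : ((y : ℝ) + 1) ^ 6 = Real.exp (5 * v0) := by
        rw [hv0]
        have : 5 * (6 / 5 * Real.log ((y : ℝ) + 1)) = ((6 : ℕ) : ℝ) * Real.log ((y : ℝ) + 1) := by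
          push_cast
          ring
        rw [this, Real.exp_nat_mul, Real.exp_log hy1]
      have hexp5 : ∀ v : ℝ, Real.exp v ^ 5 = Real.exp (5 * v) := by
        intro v
        have : (5 : ℝ) * v = ((5 : ℕ) : ℝ) * v := by norm_num
        rw [this, Real.exp_nat_mul]
      have hxv : v0 ≤ Real.log x := by
        by_contra hlt
        have hlt := not_le.mp hlt
        apply hxs
        rw [hexp6, ← Real.exp_log hxp, hexp5]
        exact Real.exp_le_exp.mpr (by linarith)
      have hB : ∀ v, v0 - Real.log 2 ≤ v → -(1 : ℝ) ≤ -(NS S (Real.exp v) / Real.exp v) := by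
        intro v _
        have := ns_le S (Real.exp v) (Real.exp_pos v).le
        have h' : NS S (Real.exp v) / Real.exp v ≤ 1 := (div_le_one (Real.exp_pos v)).mpr this
        linarith
      have hharm : ∀ v, v0 ≤ v →
          ((-(NS S (Real.exp (v - Real.log 2)) / Real.exp (v - Real.log 2)))
            + (-(NS S (Real.exp (v + Real.log (3 / 2))) / Real.exp (v + Real.log (3 / 2))))) / 2
            - D / v ^ (p + 2) ≤ -(NS S (Real.exp v) / Real.exp v) := by
        intro v hv
        have hvpos : 0 < v := by linarith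
        have he : 0 < Real.exp v := Real.exp_pos v
        have hx0v : x0 ≤ Real.exp v := by
          have : Real.log X ≤ v := hv0X.trans hv
          have h' := Real.exp_le_exp.mpr this
          rw [Real.exp_log (by linarith)] at h'
          exact hX0.trans h'
        have h6 : ((y : ℝ) + 1) ^ 6 ≤ Real.exp v ^ 5 := by
          rw [hexp6, hexp5]
          exact Real.exp_le_exp.mpr (by linarith)
        have hh := hH S y hEI (Real.exp v) hx0v h6
        rw [Real.log_exp] at hh
        have ha : Real.exp (v - Real.log 2) = Real.exp v / 2 := by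
          rw [Real.exp_sub, Real.exp_log (by norm_num)]
        have hb : Real.exp (v + Real.log (3 / 2)) = 3 * Real.exp v / 2 := by
          rw [Real.exp_add, Real.exp_log (by norm_num)]
          ring
        rw [ha, hb]
        have hup := (abs_le.mp hh).2
        have hvp : 0 < v ^ (p + 2) := pow_pos hvpos _
        have key : NS S (Real.exp v) / Real.exp v - NS S (Real.exp v / 2) / Real.exp v
            - NS S (3 * Real.exp v / 2) / 3 / Real.exp v ≤ D / v ^ (p + 2) := by
          have h1 : (NS S (Real.exp v) - NS S (Real.exp v / 2) - NS S (3 * Real.exp v / 2) / 3)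
              / Real.exp v ≤ (D * Real.exp v / v ^ (p + 2)) / Real.exp v :=
            div_le_div_of_nonneg_right hup he.le
          have h2 : (D * Real.exp v / v ^ (p + 2)) / Real.exp v = D / v ^ (p + 2) := by
            field_simp
          rw [h2, sub_div, sub_div] at h1
          exact h1
        have e1 : NS S (Real.exp v / 2) / (Real.exp v / 2)
            = 2 * (NS S (Real.exp v / 2) / Real.exp v) := by
          field_simp
        have e2 : NS S (3 * Real.exp v / 2) / (3 * Real.exp v / 2)
            = 2 * (NS S (3 * Real.exp v / 2) / 3 / Real.exp v) := by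
          field_simp
        rw [e1, e2]
        linarith
      have hinit : ∀ v, v0 - Real.log 2 ≤ v → v < v0 →
          -(C1 / Real.log y ^ (p + 1)) ≤ -(NS S (Real.exp v) / Real.exp v) := by
        intro v hv1 hv2
        have he : 0 < Real.exp v := Real.exp_pos v
        have h1x : 1 ≤ Real.exp v := Real.one_le_exp (by linarith)
        have h5 : Real.exp v ^ 5 ≤ ((y : ℝ) + 1) ^ 6 := by
          rw [hexp6, hexp5]
          exact Real.exp_le_exp.mpr (by linarith)
        have := hT y (Real.exp v) hy h1x h5
        have h' : NS S (Real.exp v) / Real.exp v ≤ C1 / Real.log y ^ (p + 1) := by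
          rw [div_le_iff₀ he]
          calc NS S (Real.exp v) ≤ C1 * Real.exp v / Real.log y ^ (p + 1) := this
            _ = C1 / Real.log y ^ (p + 1) * Real.exp v := by ring
        linarith
      have hres := hM (fun v => -(NS S (Real.exp v) / Real.exp v)) v0
        (-(C1 / Real.log y ^ (p + 1))) 1 hv02 hB hharm hinit (Real.log x) hxv
      simp only [Real.exp_log hxp] at hres
      have hv0p : 0 < v0 := by linarith
      have hk : κ / v0 ^ (p + 1) ≤ κ / Real.log y ^ (p + 1) :=
        div_le_div_of_nonneg_left hκ hpow1 (pow_le_pow_left₀ hly0.le hlv _)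
      have hb1 : NS S x / x ≤ (C1 + κ) / Real.log y ^ (p + 1) := by
        rw [add_div]
        linarith
      have hb2 : NS S x ≤ (C1 + κ) * x / Real.log y ^ (p + 1) := by
        rw [div_le_iff₀ hxp] at hb1
        calc NS S x ≤ (C1 + κ) / Real.log y ^ (p + 1) * x := hb1
          _ = (C1 + κ) * x / Real.log y ^ (p + 1) := by ring
      exact (hb2.trans (hstep _ (by positivity))).trans (hfin _ (by positivity) (by nlinarith))

end Pool.Agent.WR3.H95
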